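import Pool.Agent.H82.AS.Targets

/-!
# Lattice points in the first quadrant (MP_7ecdd4_nt, row LPQ)
-/

set_option autoImplicit false

open Pool.Agent.H38.RB Pool.Agent.H38.PS Pool.Agent.H82.AS

namespace Pool.Agent.H19.AS

open MeasureTheory

/-! ## residue classes -/

/-- the two divisibility conditions define a residue class -/
theorem exists_res {p q : ℕ} (hq : 1 ≤ q) (h : p.Coprime q) (c : ℕ) :
    ∃ r : ℕ, ∀ b : ℕ, (p ∣ b ∧ q ∣ c + b) ↔ b ≡ r [MOD p * q] := by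
  obtain ⟨r, hr1, hr2⟩ := Nat.chineseRemainder h 0 ((q - 1) * c)
  refine ⟨r, fun b => ?_⟩
  rw [← Nat.modEq_and_modEq_iff_modEq_mul h]
  have h1 : p ∣ b ↔ b ≡ r [MOD p] := by
    rw [← Nat.modEq_zero_iff_dvd]
    exact ⟨fun h2 => h2.trans hr1.symm, fun h2 => h2.trans hr1⟩
  have h3 : c + (q - 1) * c ≡ 0 [MOD q] := by
    have h4 : c + (q - 1) * c = q * c := by
      obtain ⟨k, rfl⟩ := Nat.exists_eq_add_of_le' hq
      rw [Nat.add_sub_cancel]
      ring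
    rw [h4]
    exact Nat.modEq_zero_iff_dvd.2 (Dvd.intro _ rfl)
  have h2 : q ∣ c + b ↔ b ≡ r [MOD q] := by
    rw [← Nat.modEq_zero_iff_dvd]
    constructor
    · intro h5
      have h6 : c + b ≡ c + (q - 1) * c [MOD q] := h5.trans h3.symm
      exact (Nat.ModEq.add_left_cancel' c h6).trans hr2.symm
    · intro h5
      exact (Nat.ModEq.add_left c (h5.trans hr2)).trans h3
  rw [h1, h2]

/-- the number of elements of a residue class -/
theorem card_res {m : ℕ} (hm : 1 ≤ m) (r N : ℕ) :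
    |((((Finset.Ioc 0 N).filter (fun b => b ≡ r [MOD m])).card : ℝ) - (N : ℝ) / m)| ≤ 1 := by
  have h := Nat.Ioc_filter_modEq_card 0 N (r := m) hm r
  have hm0 : (0 : ℚ) < m := by exact_mod_cast hm
  have hle : ⌊(((0 : ℕ) : ℚ) - r) / (m : ℚ)⌋ ≤ ⌊((N : ℚ) - r) / (m : ℚ)⌋ := by
    apply Int.floor_le_floor
    gcongr
    simp
  rw [max_eq_left (sub_nonneg.2 hle)] at h
  have h1 := Int.floor_le (((N : ℚ) - r) / (m : ℚ))
  have h2 := Int.lt_floor_add_one (((N : ℚ) - r) / (m : ℚ))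
  have h3 := Int.floor_le ((((0 : ℕ) : ℚ) - r) / (m : ℚ))
  have h4 := Int.lt_floor_add_one ((((0 : ℕ) : ℚ) - r) / (m : ℚ))
  have h5 : ((N : ℚ) - r) / (m : ℚ) - (((0 : ℕ) : ℚ) - r) / (m : ℚ) = (N : ℚ) / m := by
    rw [← sub_div]
    simp
  have h6 : ((((Finset.Ioc 0 N).filter (fun b => b ≡ r [MOD m])).card : ℤ) : ℚ) =
      ((⌊((N : ℚ) - r) / (m : ℚ)⌋ - ⌊(((0 : ℕ) : ℚ) - r) / (m : ℚ)⌋ : ℤ) : ℚ) := by
    exact_mod_cast h
  rw [Int.cast_natCast, Int.cast_sub] at h6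
  have h7 : |((((Finset.Ioc 0 N).filter (fun b => b ≡ r [MOD m])).card : ℚ) - (N : ℚ) / m)| ≤
      1 := by
    rw [abs_le]
    constructor <;> linarith
  have h8 := (Rat.cast_le (K := ℝ)).2 h7
  push_cast at h8
  exact h8

/-- the number of elements of a residue class below a real number -/
theorem card_res' {m : ℕ} (hm : 1 ≤ m) (r : ℕ) {G : ℝ} (hG : 0 ≤ G) :
    |((((Finset.Ioc 0 ⌊G⌋₊).filter (fun b => b ≡ r [MOD m])).card : ℝ) - G / m)| ≤ 2 := by
  have h := card_res hm r ⌊G⌋₊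
  have hm0 : (1 : ℝ) ≤ m := by exact_mod_cast hm
  have h1 := Nat.floor_le hG
  have h2 := Nat.lt_floor_add_one G
  have h3 : |(⌊G⌋₊ : ℝ) / m - G / m| ≤ 1 := by
    rw [← sub_div, abs_div, abs_of_pos (by linarith : (0 : ℝ) < m), div_le_iff₀ (by linarith)]
    rw [abs_le]
    constructor <;> linarith
  have h4 := abs_add_le ((((Finset.Ioc 0 ⌊G⌋₊).filter (fun b => b ≡ r [MOD m])).card : ℝ) -
    (⌊G⌋₊ : ℝ) / m) ((⌊G⌋₊ : ℝ) / m - G / m)
  rw [sub_add_sub_cancel] at h4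
  linarith

/-! ## sums and integrals -/

variable {g : ℝ → ℝ}

/-- the tail integral -/
noncomputable def tI (g : ℝ → ℝ) (x : ℝ) : ℝ := ∫ a in Set.Ioi x, g a

theorem tI_sub (hi : IntegrableOn g (Set.Ioi 0)) {x y : ℝ} (hx : 0 ≤ x) (hxy : x ≤ y) :
    tI g x - tI g y = ∫ a in Set.Ioc x y, g a := by
  have h1 : Set.Ioi x = Set.Ioc x y ∪ Set.Ioi y := (Set.Ioc_union_Ioi_eq_Ioi hxy).symm
  have h2 : Disjoint (Set.Ioc x y) (Set.Ioi y) := Set.Ioc_disjoint_Ioi le_rfl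
  unfold tI
  rw [h1, setIntegral_union h2 measurableSet_Ioi
    (hi.mono_set fun a ha => lt_of_le_of_lt hx ha.1)
    (hi.mono_set fun a ha => lt_of_le_of_lt (hx.trans hxy) ha)]
  ring

theorem le_tI_sub (ha : AntitoneOn g (Set.Ioi 0)) (hi : IntegrableOn g (Set.Ioi 0)) {x y : ℝ}
    (hx : 0 ≤ x) (hxy : x < y) : (y - x) * g y ≤ tI g x - tI g y := by
  rw [tI_sub hi hx hxy.le]
  have h1 : ∫ _a in Set.Ioc x y, g y = (y - x) * g y := by
    rw [setIntegral_const]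
    simp [Measure.real, Real.volume_Ioc, ENNReal.toReal_ofReal (sub_nonneg.2 hxy.le)]
  rw [← h1]
  apply setIntegral_mono_on _ _ measurableSet_Ioc
  · intro a h
    exact ha (lt_of_le_of_lt hx h.1) (lt_of_le_of_lt hx hxy) h.2
  · exact integrableOn_const (by simp)
  · exact hi.mono_set fun a ha => lt_of_le_of_lt hx ha.1

theorem tI_sub_le (ha : AntitoneOn g (Set.Ioi 0)) (hi : IntegrableOn g (Set.Ioi 0)) {x y : ℝ}
    (hx : 0 < x) (hxy : x < y) : tI g x - tI g y ≤ (y - x) * g x := by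
  rw [tI_sub hi hx.le hxy.le]
  have h1 : ∫ _a in Set.Ioc x y, g x = (y - x) * g x := by
    rw [setIntegral_const]
    simp [Measure.real, Real.volume_Ioc, ENNReal.toReal_ofReal (sub_nonneg.2 hxy.le)]
  rw [← h1]
  apply setIntegral_mono_on _ _ measurableSet_Ioc
  · intro a h
    exact ha hx (hx.trans h.1) h.1.le
  · exact hi.mono_set fun a ha => hx.trans ha.1
  · exact integrableOn_const (by simp)

theorem tI_nonneg (h0 : ∀ a : ℝ, 0 < a → 0 ≤ g a) {x : ℝ} (hx : 0 ≤ x) : 0 ≤ tI g x :=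
  setIntegral_nonneg measurableSet_Ioi fun a ha => h0 a (lt_of_le_of_lt hx ha)

/-- comparison of the sum with the integral, above -/
theorem sum_le_tI (ha : AntitoneOn g (Set.Ioi 0)) (hi : IntegrableOn g (Set.Ioi 0))
    (h0 : ∀ a : ℝ, 0 < a → 0 ≤ g a) {B : ℝ} (hB : 0 < B) (n : ℕ) :
    B * ∑ t ∈ Finset.range n, g (B * (t + 1 : ℕ)) ≤ tI g 0 := by
  have h1 : ∀ n : ℕ, B * ∑ t ∈ Finset.range n, g (B * (t + 1 : ℕ)) ≤ tI g 0 - tI g (B * n) := by
    intro n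
    induction n with
    | zero => simp
    | succ n ih =>
      rw [Finset.sum_range_succ, mul_add]
      have h2 := le_tI_sub ha hi (x := B * n) (y := B * (n + 1 : ℕ)) (by positivity)
        (by push_cast; nlinarith)
      have h3 : B * ((n + 1 : ℕ) : ℝ) - B * n = B := by
        push_cast
        ring
      rw [h3] at h2
      linarith
  have h2 := tI_nonneg h0 (x := B * n) (by positivity)
  linarith [h1 n]

/-- comparison of the sum with the integral, below -/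
theorem tI_le_sum (ha : AntitoneOn g (Set.Ioi 0)) (hi : IntegrableOn g (Set.Ioi 0))
    {B : ℝ} (hB : 0 < B) (n : ℕ) :
    tI g B - tI g (B * (n + 1 : ℕ)) ≤ B * ∑ t ∈ Finset.range n, g (B * (t + 1 : ℕ)) := by
  induction n with
  | zero => simp
  | succ n ih =>
    rw [Finset.sum_range_succ, mul_add]
    have h2 := tI_sub_le ha hi (x := B * (n + 1 : ℕ)) (y := B * (n + 1 + 1 : ℕ)) (by positivity)
      (by push_cast; nlinarith)
    have h3 : B * ((n + 1 + 1 : ℕ) : ℝ) - B * (n + 1 : ℕ) = B := by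
      push_cast
      ring
    rw [h3] at h2
    linarith

/-- the integral near zero -/
theorem near_zero (hi : IntegrableOn g (Set.Ioi 0)) {T : ℝ} (hT : 0 ≤ T)
    (h1 : ∀ a : ℝ, 0 < a → g a ≤ Real.sqrt (T / a)) {x : ℝ} (hx : 0 < x) :
    tI g 0 - tI g x ≤ 2 * (Real.sqrt T * Real.sqrt x) := by
  rw [tI_sub hi le_rfl hx.le]
  have h2 : IntegrableOn (fun a : ℝ => a ^ (-1 / 2 : ℝ)) (Set.Ioc 0 x) := by
    rw [← intervalIntegrable_iff_integrableOn_Ioc_of_le hx.le]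
    exact intervalIntegral.intervalIntegrable_rpow' (by norm_num)
  have h3 : ∫ a in Set.Ioc 0 x, Real.sqrt T * a ^ (-1 / 2 : ℝ) =
      2 * (Real.sqrt T * Real.sqrt x) := by
    rw [integral_const_mul, ← intervalIntegral.integral_of_le hx.le,
      integral_rpow (Or.inl (by norm_num))]
    have h4 : (-1 / 2 + 1 : ℝ) = 1 / 2 := by norm_num
    rw [h4, Real.zero_rpow (by norm_num), Real.sqrt_eq_rpow x]
    ring
  rw [← h3]
  apply setIntegral_mono_on _ _ measurableSet_Ioc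
  · intro a ha
    refine (h1 a ha.1).trans (le_of_eq ?_)
    rw [Real.sqrt_div hT, div_eq_mul_inv, neg_div, Real.rpow_neg ha.1.le, Real.sqrt_eq_rpow a]
  · exact hi.mono_set fun a ha => ha.1
  · exact h2.const_mul _

/-- the integral far away -/
theorem far_away (hi : IntegrableOn g (Set.Ioi 0)) {T : ℝ}
    (h1 : ∀ a : ℝ, 0 < a → g a ≤ T / a ^ 2) {x : ℝ} (hx : 0 < x) : tI g x ≤ T / x := by
  have h2 : ∫ a in Set.Ioi x, T * a ^ (-2 : ℝ) = T / x := by
    rw [integral_const_mul, integral_Ioi_rpow_of_lt (by norm_num) hx]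
    have h4 : (-2 + 1 : ℝ) = -1 := by norm_num
    rw [h4, Real.rpow_neg_one]
    ring
  rw [← h2]
  unfold tI
  apply setIntegral_mono_on _ _ measurableSet_Ioi
  · intro a ha
    have ha0 : 0 < a := hx.trans ha
    refine (h1 a ha0).trans (le_of_eq ?_)
    rw [Real.rpow_neg ha0.le, Real.rpow_two, div_eq_mul_inv]
  · exact hi.mono_set fun a ha => hx.trans ha
  · exact (integrableOn_Ioi_rpow_of_lt (by norm_num) hx).const_mul _

/-! ## the count -/

/-- the second coordinates -/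
noncomputable def Fb (β : Fin 3 → ℕ) (T : ℝ) (t : ℕ) : Finset ℕ :=
  (Finset.Ioc 0 ⌊gT T ((β 0 : ℝ) * t)⌋₊).filter (fun b => β 1 ∣ b ∧ β 2 ∣ β 0 * t + b)

theorem card_Fb (h : T_GTB) {β : Fin 3 → ℕ} {T : ℝ} (hβ : ∀ i, 1 ≤ β i)
    (hc : (β 1).Coprime (β 2)) (hT : 0 ≤ T) {t : ℕ} (ht : 1 ≤ t) :
    |((Fb β T t).card : ℝ) - gT T ((β 0 : ℝ) * t) / ((β 1 * β 2 : ℕ) : ℝ)| ≤ 2 := by
  obtain ⟨r, hr⟩ := exists_res (hβ 2) hc (β 0 * t)
  have h1 : Fb β T t = (Finset.Ioc 0 ⌊gT T ((β 0 : ℝ) * t)⌋₊).filter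
      (fun b => b ≡ r [MOD β 1 * β 2]) := by
    unfold Fb
    exact Finset.filter_congr fun b _ => hr b
  have h2 : 0 < (β 0 : ℝ) * t := by
    have := hβ 0
    positivity
  rw [h1]
  exact card_res' (Nat.mul_pos (hβ 1) (hβ 2)) r ((h T hT).2.2.1 _ h2).1

theorem PQ_eq (h : T_GTB) {β : Fin 3 → ℕ} {T : ℝ} (hβ : ∀ i, 1 ≤ β i) (hT : 0 ≤ T) :
    PQ β T = (fun z : (_ : ℕ) × ℕ => (β 0 * (z.1 + 1), z.2)) ''
      (((Finset.range ⌊Real.sqrt T / β 0⌋₊).sigma (fun t => Fb β T (t + 1)) :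
        Finset ((_ : ℕ) × ℕ)) : Set ((_ : ℕ) × ℕ)) := by
  have hb0 : (1 : ℝ) ≤ β 0 := by exact_mod_cast hβ 0
  have key : ∀ a b : ℕ, 1 ≤ a → 1 ≤ b →
      (((a * b * (a + b) : ℕ) : ℝ) ≤ T ↔ b ≤ ⌊gT T (a : ℝ)⌋₊) := by
    intro a b ha hb
    have ha0 : (0 : ℝ) < a := by exact_mod_cast ha
    have hb0 : (0 : ℝ) < b := by exact_mod_cast hb
    rw [Nat.le_floor_iff ((h T hT).2.2.1 _ ha0).1, ← (h T hT).1 a b ha0 hb0]
    push_cast
    rfl
  ext ⟨a, b⟩
  constructor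
  · rintro ⟨ha, hb, ⟨t, rfl⟩, h1, h2, h3⟩
    have ha' : 1 ≤ β 0 * t := ha
    have hb' : 1 ≤ b := hb
    have ht : 1 ≤ t := by
      rcases Nat.eq_zero_or_pos t with h4 | h4
      · rw [h4] at ha'
        simp at ha'
      · exact h4
    obtain ⟨s, rfl⟩ := Nat.exists_eq_add_of_le' ht
    refine ⟨⟨s, b⟩, ?_, rfl⟩
    rw [Finset.mem_coe, Finset.mem_sigma]
    constructor
    · rw [Finset.mem_range, ← Nat.succ_le_iff, Nat.le_floor_iff (by positivity),
        le_div_iff₀ (by linarith)]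
      apply Real.le_sqrt_of_sq_le
      refine le_trans ?_ h3
      have h5 : (β 0 * (s + 1)) * (β 0 * (s + 1)) ≤
          β 0 * (s + 1) * b * (β 0 * (s + 1) + b) := by
        calc (β 0 * (s + 1)) * (β 0 * (s + 1)) = β 0 * (s + 1) * 1 * (β 0 * (s + 1) + 0) := by
              ring
          _ ≤ _ := by
              gcongr
              omega
      have h6 : (((β 0 * (s + 1)) * (β 0 * (s + 1)) : ℕ) : ℝ) ≤
          ((β 0 * (s + 1) * b * (β 0 * (s + 1) + b) : ℕ) : ℝ) := by exact_mod_cast h5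
      refine le_trans (le_of_eq ?_) h6
      push_cast
      ring
    · have h4 := (key _ b ha' hb').1 h3
      unfold Fb
      rw [Finset.mem_filter, Finset.mem_Ioc]
      refine ⟨⟨hb', ?_⟩, h1, h2⟩
      push_cast at h4 ⊢
      exact h4
  · rintro ⟨⟨s, b'⟩, h1, h2⟩
    obtain ⟨rfl, rfl⟩ := Prod.mk.inj h2
    rw [Finset.mem_coe, Finset.mem_sigma] at h1
    have h3 := h1.2
    unfold Fb at h3
    rw [Finset.mem_filter, Finset.mem_Ioc] at h3
    obtain ⟨⟨h4, h5⟩, h6, h7⟩ := h3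
    have ha : 1 ≤ β 0 * (s + 1) := Nat.mul_pos (hβ 0) (Nat.succ_pos s)
    refine ⟨ha, h4, Dvd.intro _ rfl, h6, h7, ?_⟩
    refine (key _ _ ha h4).2 ?_
    push_cast at h5 ⊢
    exact h5

theorem pf_LPQ (h : T_GTB) : T_LPQ := by
  refine ⟨8, by norm_num, fun β T hβ hc hT => ?_⟩
  have hb0 : (1 : ℝ) ≤ β 0 := by exact_mod_cast hβ 0
  have hb1 : (1 : ℝ) ≤ β 1 := by exact_mod_cast hβ 1
  have hb2 : (1 : ℝ) ≤ β 2 := by exact_mod_cast hβ 2
  obtain ⟨-, hanti, hbd, hint, hval⟩ := h T hT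
  set n := ⌊Real.sqrt T / β 0⌋₊ with hn
  have hPQ := PQ_eq h hβ hT
  rw [← hn] at hPQ
  rw [hPQ]
  refine ⟨Set.Finite.image _ (Finset.finite_toSet _), ?_⟩
  have hinj : Set.InjOn (fun z : (_ : ℕ) × ℕ => (β 0 * (z.1 + 1), z.2))
      (((Finset.range n).sigma (fun t => Fb β T (t + 1)) :
        Finset ((_ : ℕ) × ℕ)) : Set ((_ : ℕ) × ℕ)) := by
    rintro ⟨s, b⟩ - ⟨s', b'⟩ - h1
    obtain ⟨h2, rfl⟩ := Prod.mk.inj h1
    have h3 := Nat.eq_of_mul_eq_mul_left (hβ 0) h2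
    have h4 : s = s' := Nat.succ_injective h3
    rw [h4]
  rw [hinj.ncard_image, Set.ncard_coe_finset, Finset.card_sigma]
  set m : ℝ := ((β 1 * β 2 : ℕ) : ℝ) with hm
  have hm1 : 1 ≤ m := by
    rw [hm]
    push_cast
    nlinarith
  -- the error in the count
  have hE1 : |((∑ t ∈ Finset.range n, (Fb β T (t + 1)).card : ℕ) : ℝ) -
      (∑ t ∈ Finset.range n, gT T (β 0 * (t + 1 : ℕ))) / m| ≤ 2 * n := by
    rw [Nat.cast_sum, Finset.sum_div, ← Finset.sum_sub_distrib]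
    refine (Finset.abs_sum_le_sum_abs _ _).trans ?_
    refine (Finset.sum_le_sum fun t _ => card_Fb h hβ hc hT (Nat.succ_pos t)).trans ?_
    rw [Finset.sum_const, Finset.card_range, nsmul_eq_mul]
    linarith
  have hsT := Real.sqrt_nonneg T
  have hnle : (n : ℝ) ≤ Real.sqrt T := by
    refine (Nat.floor_le (by positivity)).trans ?_
    rw [div_le_iff₀ (by linarith)]
    nlinarith
  have hnlt : Real.sqrt T ≤ β 0 * ((n + 1 : ℕ) : ℝ) := by
    have h1 := (Nat.lt_floor_add_one (Real.sqrt T / β 0)).le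
    rw [← hn, div_le_iff₀ (by linarith)] at h1
    push_cast
    linarith
  -- the integral
  have hI : tI (gT T) 0 = AR * T ^ (2 / 3 : ℝ) := hval
  have hb0' : (0 : ℝ) < β 0 := by linarith
  have hU := sum_le_tI hanti hint (fun a ha => (hbd a ha).1) hb0' n
  have hL := tI_le_sum hanti hint hb0' n
  have hN := near_zero hint hT (fun a ha => (hbd a ha).2.1) hb0'
  have hF := far_away hint (fun a ha => (hbd a ha).2.2)
    (x := β 0 * ((n + 1 : ℕ) : ℝ)) (by positivity)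
  have hF2 : T / (β 0 * ((n + 1 : ℕ) : ℝ)) ≤ Real.sqrt T := by
    rw [div_le_iff₀ (by positivity)]
    nlinarith [Real.mul_self_sqrt hT]
  have hs0 : Real.sqrt (β 0 : ℝ) ≤ β 0 := by
    rw [Real.sqrt_le_left hb0'.le]
    nlinarith
  set S := ∑ t ∈ Finset.range n, gT T (β 0 * (t + 1 : ℕ)) with hS
  have hE2 : |β 0 * S - AR * T ^ (2 / 3 : ℝ)| ≤ 3 * (Real.sqrt T * β 0) := by
    have h1 : Real.sqrt T * Real.sqrt (β 0 : ℝ) ≤ Real.sqrt T * β 0 := by gcongr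
    have h2 : Real.sqrt T ≤ Real.sqrt T * β 0 := by nlinarith
    rw [abs_le]
    constructor <;> linarith
  have hE3 : |S / m - AR * T ^ (2 / 3 : ℝ) / ((β 0 : ℝ) * β 1 * β 2)| ≤ 3 * Real.sqrt T := by
    have h1 : S / m - AR * T ^ (2 / 3 : ℝ) / ((β 0 : ℝ) * β 1 * β 2) =
        (β 0 * S - AR * T ^ (2 / 3 : ℝ)) / (β 0 * m) := by
      rw [hm]
      push_cast
      field_simp
    rw [h1, abs_div, abs_of_pos (by positivity : 0 < (β 0 : ℝ) * m), div_le_iff₀ (by positivity)]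
    refine hE2.trans ?_
    have h2 : Real.sqrt T * β 0 ≤ Real.sqrt T * β 0 * m := by
      have h3 : 0 ≤ Real.sqrt T * β 0 := by positivity
      nlinarith
    linarith
  rw [← Real.sqrt_eq_rpow]
  have h4 := abs_add_le (((∑ t ∈ Finset.range n, (Fb β T (t + 1)).card : ℕ) : ℝ) - S / m)
    (S / m - AR * T ^ (2 / 3 : ℝ) / ((β 0 : ℝ) * β 1 * β 2))
  rw [sub_add_sub_cancel] at h4
  linarith

end Pool.Agent.H19.AS
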